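import Pool.Agent.Helper51.OJM.Lift

namespace Pool.Agent.Results.MP_fb7f9c_al.OddJucysMurphy

open Pool.Agent.Helper51.OJM

/-- Question Q1, answered affirmatively: for every `n`, the elements `F(J_1,J_3,…,J_{2n-1}) P_n`,
with `F` a symmetric function, are exactly the elements of the Hecke algebra of `(S_{2n}, H_n)`. -/
theorem result (n : ℕ) : {x : GA n | ∃ F ∈ SymFun, x = evalOdd n F * P n} = Hecke n :=
  main n

end Pool.Agent.Results.MP_fb7f9c_al.OddJucysMurphy
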